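import Mathlib

set_option autoImplicit false

/-!
# Pairs of graphs whose exclusion as contractions leaves a well-quasi-ordered class

Suppose that the class of the connected graphs which have neither `H₁` nor `H₂` as a contraction is
well-quasi-ordered by contractions. Then one of `H₁`, `H₂` is a star `K_{1,s}` or `K_{1,1,s}`, and one
of them is a complete multipartite graph with parts of size at most `2`, at least one of which has
size `1`.

The two necessary conditions come from the infinite antichains `K_{2,r}` and `K_{2,…,2}`: all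
contractions of `K_{2,r}` other than the graph itself are of the first form, and all contractions of
`K_{2,…,2}` other than the graph itself are of the second form.
-/

namespace Pool.Agent.Results.MP_07dfc7_co.TwoAntichains

/-- `H` is a contraction of `G`: the vertices of `G` are distributed over nonempty connected sets, one
for each vertex of `H`, such that two vertices of `H` are adjacent if and only if there is an edge
between their sets. -/
def Contracts {V W : Type*} (G : SimpleGraph V) (H : SimpleGraph W) : Prop :=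
  ∃ f : V → W, Function.Surjective f ∧ (∀ w, (G.induce {v | f v = w}).Connected) ∧
    ∀ a b, H.Adj a b ↔ a ≠ b ∧ ∃ u v, f u = a ∧ f v = b ∧ G.Adj u v

/-- A class of finite graphs is well-quasi-ordered by contractions. -/
def WQO (P : ∀ n : ℕ, SimpleGraph (Fin n) → Prop) : Prop :=
  ∀ (N : ℕ → ℕ) (G : ∀ i, SimpleGraph (Fin (N i))), (∀ i, P (N i) (G i)) →
    ∃ i j, i < j ∧ Contracts (G j) (G i)

/-- The connected graphs which have neither `H₁` nor `H₂` as a contraction. -/
def Excl {W₁ W₂ : Type*} (H₁ : SimpleGraph W₁) (H₂ : SimpleGraph W₂) (n : ℕ)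
    (G : SimpleGraph (Fin n)) : Prop :=
  G.Connected ∧ ¬ Contracts G H₁ ∧ ¬ Contracts G H₂

/-- `H` is `K_{1,s}` or `K_{1,1,s}` for some `s` (the first for `a = b`): the edges are the pairs of
distinct vertices which meet `{a, b}`. -/
def Starlike {W : Type*} (H : SimpleGraph W) : Prop :=
  ∃ a b : W, ∀ u v, H.Adj u v ↔ u ≠ v ∧ (u = a ∨ u = b ∨ v = a ∨ v = b)

/-- `H` is complete multipartite with parts of size at most `2`, one of them of size `1`: some vertex
is adjacent to all others, and each vertex has at most one non-neighbour. -/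
def Cocktail {W : Type*} (H : SimpleGraph W) : Prop :=
  (∃ a, ∀ v, v ≠ a → H.Adj a v) ∧
    ∀ u v w, u ≠ v → u ≠ w → v ≠ w → H.Adj u v ∨ H.Adj u w

/-- The diamond, `K₄` minus an edge. -/
def Diamond : SimpleGraph (Fin 4) where
  Adj u v := u ≠ v ∧ ¬ (2 ≤ u.val ∧ 2 ≤ v.val)
  symm := ⟨fun _ _ h => ⟨h.1.symm, fun h' => h.2 ⟨h'.2, h'.1⟩⟩⟩
  loopless := ⟨fun _ h => h.1 rfl⟩

/-- `H` is one of the five graphs `P₁`, `P₂`, `P₃`, `C₃` and diamond of the theorem of Kamiński, Raymond
and Trunck: each of them alone gives a well-quasi-ordered class. -/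
def Known {W : Type*} (H : SimpleGraph W) : Prop :=
  Nonempty (H ≃g SimpleGraph.pathGraph 1) ∨ Nonempty (H ≃g SimpleGraph.pathGraph 2) ∨
    Nonempty (H ≃g SimpleGraph.pathGraph 3) ∨ Nonempty (H ≃g (⊤ : SimpleGraph (Fin 3))) ∨
      Nonempty (H ≃g Diamond)

theorem fin_eq {n i : ℕ} {v : Fin n} (h : i < n) (e : v.val = i) : v = ⟨i, h⟩ := Fin.ext e

theorem exists_adj {V W : Type*} {G : SimpleGraph V} {f : V → W}
    (hf : ∀ w, (G.induce {v | f v = w}).Connected) {x y : V} (h : f x = f y) (hxy : x ≠ y) :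
    ∃ z, f z = f x ∧ G.Adj x z := by
  obtain ⟨p⟩ := (hf (f x)).preconnected ⟨x, rfl⟩ ⟨y, h.symm⟩
  cases p with
  | nil => exact absurd rfl hxy
  | cons h' q =>
    rename_i z
    exact ⟨z.1, z.2, h'⟩

/-- `K_{2,r}`. -/
def K2 (r : ℕ) : SimpleGraph (Fin (r + 2)) where
  Adj u v := (u.val < 2 ∧ 2 ≤ v.val) ∨ (v.val < 2 ∧ 2 ≤ u.val)
  symm := ⟨fun _ _ h => h.symm⟩
  loopless := ⟨fun _ h => by omega⟩

/-- The cocktail party graph `K_{2,…,2}` with `k` parts. -/
def CP (k : ℕ) : SimpleGraph (Fin (2 * k)) where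
  Adj u v := u.val / 2 ≠ v.val / 2
  symm := ⟨fun _ _ h => Ne.symm h⟩
  loopless := ⟨fun _ h => h rfl⟩

theorem K2_adj {r : ℕ} (u v : Fin (r + 2)) :
    (K2 r).Adj u v ↔ (u.val < 2 ∧ 2 ≤ v.val) ∨ (v.val < 2 ∧ 2 ≤ u.val) := Iff.rfl

theorem CP_adj {k : ℕ} (u v : Fin (2 * k)) : (CP k).Adj u v ↔ u.val / 2 ≠ v.val / 2 := Iff.rfl

theorem K2_connected (r : ℕ) (hr : 1 ≤ r) : (K2 r).Connected := by
  have h2 : (K2 r).Reachable ⟨0, by omega⟩ ⟨2, by omega⟩ :=
    SimpleGraph.Adj.reachable (by rw [K2_adj]; simp)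
  have h1 : (K2 r).Reachable ⟨0, by omega⟩ ⟨1, by omega⟩ :=
    h2.trans (SimpleGraph.Adj.reachable (by rw [K2_adj]; simp))
  have h0 : ∀ v : Fin (r + 2), (K2 r).Reachable ⟨0, by omega⟩ v := by
    intro v
    by_cases hv : 2 ≤ v.val
    · exact SimpleGraph.Adj.reachable (by rw [K2_adj]; simp [hv])
    · rcases Nat.lt_or_ge v.val 1 with h | h
      · have : v = ⟨0, by omega⟩ := fin_eq _ (by omega)
        rw [this]
      · have : v = ⟨1, by omega⟩ := fin_eq _ (by omega)
        rw [this]; exact h1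
  have : Nonempty (Fin (r + 2)) := ⟨⟨0, by omega⟩⟩
  exact ⟨fun u v => (h0 u).symm.trans (h0 v)⟩

theorem CP_connected (k : ℕ) (hk : 2 ≤ k) : (CP k).Connected := by
  have h2 : (CP k).Reachable ⟨0, by omega⟩ ⟨2, by omega⟩ :=
    SimpleGraph.Adj.reachable (by rw [CP_adj]; simp)
  have h1 : (CP k).Reachable ⟨0, by omega⟩ ⟨1, by omega⟩ :=
    h2.trans (SimpleGraph.Adj.reachable (by rw [CP_adj]; simp))
  have h0 : ∀ v : Fin (2 * k), (CP k).Reachable ⟨0, by omega⟩ v := by
    intro v
    by_cases hv : 2 ≤ v.val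
    · exact SimpleGraph.Adj.reachable (by rw [CP_adj]; simp; omega)
    · rcases Nat.lt_or_ge v.val 1 with h | h
      · have : v = ⟨0, by omega⟩ := fin_eq _ (by omega)
        rw [this]
      · have : v = ⟨1, by omega⟩ := fin_eq _ (by omega)
        rw [this]; exact h1
  have : Nonempty (Fin (2 * k)) := ⟨⟨0, by omega⟩⟩
  exact ⟨fun u v => (h0 u).symm.trans (h0 v)⟩

theorem K2_contract {r : ℕ} {W : Type*} [Fintype W] {H : SimpleGraph W}
    (h : Contracts (K2 r) H) : Fintype.card W = r + 2 ∨ Starlike H := by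
  obtain ⟨f, hs, hc, ha⟩ := h
  by_cases hi : Function.Injective f
  · left
    have := Fintype.card_of_bijective ⟨hi, hs⟩
    simpa using this.symm
  · right
    have hj : ∃ j : Fin (r + 2), 2 ≤ j.val ∧ (f j = f ⟨0, by omega⟩ ∨ f j = f ⟨1, by omega⟩) := by
      simp only [Function.Injective, not_forall] at hi
      obtain ⟨x, y, hxy, hne⟩ := hi
      obtain ⟨z, hz, hadj⟩ := exists_adj hc hxy hne
      rcases hadj with ⟨h1, h2⟩ | ⟨h1, h2⟩
      · refine ⟨z, h2, ?_⟩
        rcases Nat.lt_or_ge x.val 1 with h | h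
        · left; rw [hz]; congr 1; exact fin_eq _ (by omega)
        · right; rw [hz]; congr 1; exact fin_eq _ (by omega)
      · refine ⟨x, h2, ?_⟩
        rcases Nat.lt_or_ge z.val 1 with h | h
        · left; rw [← hz]; congr 1; exact fin_eq _ (by omega)
        · right; rw [← hz]; congr 1; exact fin_eq _ (by omega)
    obtain ⟨j, hj2, hj⟩ := hj
    have hab : f ⟨0, by omega⟩ ≠ f ⟨1, by omega⟩ → H.Adj (f ⟨0, by omega⟩) (f ⟨1, by omega⟩) := by
      intro hne
      rw [ha]
      refine ⟨hne, ?_⟩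
      rcases hj with h | h
      · exact ⟨j, ⟨1, by omega⟩, h, rfl, Or.inr ⟨by simp, hj2⟩⟩
      · exact ⟨⟨0, by omega⟩, j, rfl, h, Or.inl ⟨by simp, hj2⟩⟩
    have hhub : ∀ i : Fin (r + 2), i.val < 2 → ∀ v, f i ≠ v → H.Adj (f i) v := by
      intro i hi2 v hne
      obtain ⟨y, rfl⟩ := hs v
      by_cases hy : 2 ≤ y.val
      · rw [ha]
        exact ⟨hne, i, y, rfl, rfl, Or.inl ⟨hi2, hy⟩⟩
      · rcases Nat.lt_or_ge i.val 1 with h | h <;> rcases Nat.lt_or_ge y.val 1 with h' | h'
        · exact absurd (congrArg f (Fin.ext (by omega))) hne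
        · have e1 : i = ⟨0, by omega⟩ := fin_eq _ (by omega)
          have e2 : y = ⟨1, by omega⟩ := fin_eq _ (by omega)
          rw [e1, e2] at hne ⊢
          exact hab hne
        · have e1 : i = ⟨1, by omega⟩ := fin_eq _ (by omega)
          have e2 : y = ⟨0, by omega⟩ := fin_eq _ (by omega)
          rw [e1, e2] at hne ⊢
          exact (hab hne.symm).symm
        · exact absurd (congrArg f (Fin.ext (by omega))) hne
    refine ⟨f ⟨0, by omega⟩, f ⟨1, by omega⟩, fun u v => ⟨fun h => ?_, fun h => ?_⟩⟩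
    · refine ⟨h.ne, ?_⟩
      rw [ha] at h
      obtain ⟨-, x, y, rfl, rfl, h | h⟩ := h
      · rcases Nat.lt_or_ge x.val 1 with h' | h'
        · left; congr 1; exact fin_eq _ (by omega)
        · right; left; congr 1; exact fin_eq _ (by omega)
      · rcases Nat.lt_or_ge y.val 1 with h' | h'
        · right; right; left; congr 1; exact fin_eq _ (by omega)
        · right; right; right; congr 1; exact fin_eq _ (by omega)
    · obtain ⟨hne, rfl | rfl | rfl | rfl⟩ := h
      · exact hhub _ (by simp) _ hne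
      · exact hhub _ (by simp) _ hne
      · exact (hhub _ (by simp) _ hne.symm).symm
      · exact (hhub _ (by simp) _ hne.symm).symm

theorem CP_contract {k : ℕ} {W : Type*} [Fintype W] {H : SimpleGraph W}
    (h : Contracts (CP k) H) : Fintype.card W = 2 * k ∨ Cocktail H := by
  obtain ⟨f, hs, hc, ha⟩ := h
  by_cases hi : Function.Injective f
  · left
    have := Fintype.card_of_bijective ⟨hi, hs⟩
    simpa using this.symm
  · right
    refine ⟨?_, ?_⟩
    · simp only [Function.Injective, not_forall] at hi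
      obtain ⟨x, y, hxy, hne⟩ := hi
      obtain ⟨z, hz, hadj⟩ := exists_adj hc hxy hne
      rw [CP_adj] at hadj
      refine ⟨f x, fun v hv => ?_⟩
      obtain ⟨t, rfl⟩ := hs v
      rw [ha]
      refine ⟨hv.symm, ?_⟩
      by_cases h1 : x.val / 2 = t.val / 2
      · exact ⟨z, t, hz, rfl, by rw [CP_adj]; omega⟩
      · exact ⟨x, t, rfl, rfl, h1⟩
    · intro u v w huv huw hvw
      obtain ⟨x, rfl⟩ := hs u
      obtain ⟨y, rfl⟩ := hs v
      obtain ⟨z, rfl⟩ := hs w
      by_cases h1 : x.val / 2 = y.val / 2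
      · right
        rw [ha]
        refine ⟨huw, x, z, rfl, rfl, ?_⟩
        rw [CP_adj]
        intro h2
        have hxy : x ≠ y := fun h => huv (congrArg f h)
        have hxz : x ≠ z := fun h => huw (congrArg f h)
        have hyz : y ≠ z := fun h => hvw (congrArg f h)
        have a1 : x.val ≠ y.val := fun h => hxy (Fin.ext h)
        have a2 : x.val ≠ z.val := fun h => hxz (Fin.ext h)
        have a3 : y.val ≠ z.val := fun h => hyz (Fin.ext h)
        omega
      · left
        rw [ha]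
        exact ⟨huv, x, y, rfl, rfl, h1⟩

theorem K2_not_starlike (r : ℕ) (hr : 2 ≤ r) : ¬ Starlike (K2 r) := by
  rintro ⟨a, b, h⟩
  have h01 := h ⟨0, by omega⟩ ⟨1, by omega⟩
  have h23 := h ⟨2, by omega⟩ ⟨3, by omega⟩
  have h02 := h ⟨0, by omega⟩ ⟨2, by omega⟩
  rw [K2_adj] at h01 h23 h02
  simp at h01 h23 h02
  tauto

theorem CP_not_cocktail (k : ℕ) : ¬ Cocktail (CP k) := by
  rintro ⟨⟨a, h⟩, -⟩
  have hlt := a.2
  by_cases h0 : a.val % 2 = 0
  · have := h ⟨a.val + 1, by omega⟩ (fun e => by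
      have := congrArg Fin.val e
      simp at this)
    rw [CP_adj] at this
    simp only [ne_eq] at this
    omega
  · have := h ⟨a.val - 1, by omega⟩ (fun e => by
      have := congrArg Fin.val e
      simp at this
      omega)
    rw [CP_adj] at this
    simp only [ne_eq] at this
    omega

theorem K2_excl {m : ℕ} {H : SimpleGraph (Fin m)} {r : ℕ} (hr : m < r + 2) (h : ¬ Starlike H) :
    ¬ Contracts (K2 r) H := by
  intro h'
  rcases K2_contract h' with h1 | h1
  · rw [Fintype.card_fin] at h1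
    omega
  · exact h h1

theorem CP_excl {m : ℕ} {H : SimpleGraph (Fin m)} {k : ℕ} (hk : m < 2 * k) (h : ¬ Cocktail H) :
    ¬ Contracts (CP k) H := by
  intro h'
  rcases CP_contract h' with h1 | h1
  · rw [Fintype.card_fin] at h1
    omega
  · exact h h1

theorem starlike_iso {W W' : Type*} [Fintype W] [Fintype W'] [DecidableEq W'] {H : SimpleGraph W}
    {H' : SimpleGraph W'} {a b : W} {a' b' : W'}
    (h : ∀ u v, H.Adj u v ↔ u ≠ v ∧ (u = a ∨ u = b ∨ v = a ∨ v = b))
    (h' : ∀ u v, H'.Adj u v ↔ u ≠ v ∧ (u = a' ∨ u = b' ∨ v = a' ∨ v = b'))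
    (hab : a = b ↔ a' = b') (hc : Fintype.card W = Fintype.card W') : Nonempty (H ≃g H') := by
  obtain ⟨e, ea, eb⟩ : ∃ e : W ≃ W', e a = a' ∧ e b = b' := by
    let e0 : W ≃ W' := Fintype.equivOfCardEq hc
    let e1 : W ≃ W' := e0.trans (Equiv.swap (e0 a) a')
    have h1 : e1 a = a' := by simp [e1]
    let e2 : W ≃ W' := e1.trans (Equiv.swap (e1 b) b')
    have h2 : e2 b = b' := by simp [e2]
    refine ⟨e2, ?_, h2⟩
    by_cases h3 : a = b
    · rw [h3, h2, hab.mp h3]
    · have h4 : a' ≠ e1 b := fun h5 => h3 (e1.injective (h1.trans h5))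
      have h5 : a' ≠ b' := fun h5 => h3 (hab.mpr h5)
      show Equiv.swap (e1 b) b' (e1 a) = a'
      rw [h1, Equiv.swap_apply_of_ne_of_ne h4 h5]
  refine ⟨⟨e, ?_⟩⟩
  intro u v
  rw [h, h', ← ea, ← eb]
  simp only [ne_eq, EmbeddingLike.apply_eq_iff_eq]

theorem known_of {m : ℕ} {H : SimpleGraph (Fin m)} (hs : Starlike H) (hc : Cocktail H) :
    Known H := by
  obtain ⟨a, b, h⟩ := hs
  -- at most two vertices outside `{a, b}`
  have hout : ∀ x y z : Fin m, x ≠ y → x ≠ z → y ≠ z → x ≠ a → x ≠ b → y ≠ a → y ≠ b → z ≠ a →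
      z ≠ b → False := by
    intro x y z hxy hxz hyz h1 h2 h3 h4 h5 h6
    rcases hc.2 x y z hxy hxz hyz with h7 | h7
    · rw [h] at h7
      tauto
    · rw [h] at h7
      tauto
  have hcard : ((Finset.univ.erase a).erase b).card ≤ 2 := by
    by_contra hlt
    push Not at hlt
    obtain ⟨x, y, z, hx, hy, hz, h1, h2, h3⟩ := Finset.two_lt_card_iff.mp hlt
    simp only [Finset.mem_erase, Finset.mem_univ, and_true] at hx hy hz
    exact hout x y z h1 h2 h3 hx.2 hx.1 hy.2 hy.1 hz.2 hz.1
  have hm : 0 < m := lt_of_le_of_lt (Nat.zero_le _) a.2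
  by_cases hab : a = b
  · subst hab
    rw [Finset.erase_idem, Finset.card_erase_of_mem (Finset.mem_univ _), Finset.card_univ,
      Fintype.card_fin] at hcard
    have hm3 : m ≤ 3 := by omega
    interval_cases m
    · left
      exact starlike_iso (a' := 0) (b' := 0) h (by
        intro u v
        fin_cases u; fin_cases v
        simp) (by simp) rfl
    · right; left
      exact starlike_iso (a' := 0) (b' := 0) h (by
        intro u v
        fin_cases u <;> fin_cases v <;> simp [SimpleGraph.pathGraph_adj]) (by simp) rfl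
    · right; right; left
      exact starlike_iso (a' := 1) (b' := 1) h (by
        intro u v
        fin_cases u <;> fin_cases v <;> simp [SimpleGraph.pathGraph_adj]) (by simp) rfl
  · rw [Finset.card_erase_of_mem (Finset.mem_erase.mpr ⟨Ne.symm hab, Finset.mem_univ _⟩),
      Finset.card_erase_of_mem (Finset.mem_univ _), Finset.card_univ, Fintype.card_fin] at hcard
    have hm3 : m ≤ 4 := by omega
    interval_cases m
    · exact absurd (Subsingleton.elim a b) hab
    · right; left
      exact starlike_iso (a' := 0) (b' := 1) h (by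
        intro u v
        fin_cases u <;> fin_cases v <;> simp [SimpleGraph.pathGraph_adj]) (by simp [hab]) rfl
    · right; right; right; left
      exact starlike_iso (a' := 0) (b' := 1) h (by
        intro u v
        fin_cases u <;> fin_cases v <;> simp) (by simp [hab]) rfl
    · right; right; right; right
      exact starlike_iso (a' := 0) (b' := 1) h (by
        intro u v
        fin_cases u <;> fin_cases v <;> simp [Diamond]) (by simp [hab]) rfl

theorem result {m₁ m₂ : ℕ} (H₁ : SimpleGraph (Fin m₁)) (H₂ : SimpleGraph (Fin m₂))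
    (h : WQO (Excl H₁ H₂)) :
    (Known H₁ ∨ Known H₂) ∨ (Starlike H₁ ∧ Cocktail H₂) ∨ (Starlike H₂ ∧ Cocktail H₁) := by
  have hS : Starlike H₁ ∨ Starlike H₂ := by
    by_contra hcon
    rw [not_or] at hcon
    obtain ⟨i, j, hij, hc⟩ := h (fun i => (i + m₁ + m₂ + 2) + 2) (fun i => K2 (i + m₁ + m₂ + 2))
      (fun i => ⟨K2_connected _ (by omega), K2_excl (by omega) hcon.1, K2_excl (by omega) hcon.2⟩)
    exact K2_excl (by omega) (K2_not_starlike _ (by omega)) hc
  have hT : Cocktail H₁ ∨ Cocktail H₂ := by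
    by_contra hcon
    rw [not_or] at hcon
    obtain ⟨i, j, hij, hc⟩ := h (fun i => 2 * (i + m₁ + m₂ + 2)) (fun i => CP (i + m₁ + m₂ + 2))
      (fun i => ⟨CP_connected _ (by omega), CP_excl (by omega) hcon.1, CP_excl (by omega) hcon.2⟩)
    exact CP_excl (by omega) (CP_not_cocktail _) hc
  rcases hS with h1 | h1 <;> rcases hT with h2 | h2
  · exact Or.inl (Or.inl (known_of h1 h2))
  · exact Or.inr (Or.inl ⟨h1, h2⟩)
  · exact Or.inr (Or.inr ⟨h1, h2⟩)
  · exact Or.inl (Or.inr (known_of h1 h2))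

end Pool.Agent.Results.MP_07dfc7_co.TwoAntichains
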